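import Pool.Agent.Lib.MP_ad5d82_an.Main

set_option autoImplicit false

namespace Pool.Agent.Results.MP_ad5d82_an.CommonVortexPoint

open Pool.Agent.ChernSimons

/-- For every Cartan matrix `K` of finite type (a symmetrizable integer matrix with diagonal `2`,
nonpositive off-diagonal entries and positive definite symmetrisation), every `lam > 0`, all
multiplicities `N a ≥ 0` and every point `p`: if all vortex points are equal to `p`, then both the
system with `K` and the system with its transpose have non-topological solutions, in the sense of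
the problem (smooth off the vortex points, distributional, `exp (u a) → 0` at infinity), moreover
with integrable `exp (u a)`; there is even one for every sufficiently negative vector of initial
values `α`, where `u a x = N a * log |x - p|² + α a + o(1)` as `x → p`. -/
theorem result :
    ∀ r : ℕ, ∀ K : Matrix (Fin r) (Fin r) ℤ,
      (∀ a, K a a = 2) → (∀ a b, a ≠ b → K a b ≤ 0) →
      (∃ d : Fin r → ℝ, (∀ a, 0 < d a) ∧
        (Matrix.of fun a b => d a * (K a b : ℝ)).PosDef) →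
      ∀ lam : ℝ, 0 < lam → ∀ N : Fin r → ℕ, ∀ p : ℝ × ℝ,
      ∀ M : Matrix (Fin r) (Fin r) ℤ, (M = K ∨ M = K.transpose) →
      ∃ A : ℝ, ∀ α : Fin r → ℝ, (∀ a, α a ≤ A) →
      ∃ u : Fin r → ℝ × ℝ → ℝ,
        (∀ a, ContDiffOn ℝ ((⊤ : ℕ∞) : WithTop ℕ∞) (u a)
            {x | ∀ (b : Fin r) (_ : Fin (N b)), x ≠ p}) ∧
        (∀ a, MeasureTheory.LocallyIntegrable (u a) MeasureTheory.volume) ∧
        (∀ a, MeasureTheory.LocallyIntegrable
            (fun x => ∑ b, ∑ c, (M a b : ℝ) * Real.exp (u b x) * (M b c : ℝ) * Real.exp (u c x)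
                - ∑ b, (M a b : ℝ) * Real.exp (u b x)) MeasureTheory.volume) ∧
        (∀ a, ∀ φ : ℝ × ℝ → ℝ, ContDiff ℝ ((⊤ : ℕ∞) : WithTop ℕ∞) φ → HasCompactSupport φ →
          ∫ x, u a x * (iteratedFDeriv ℝ 2 φ x
                (![((1 : ℝ), (0 : ℝ)), ((1 : ℝ), (0 : ℝ))] : Fin 2 → ℝ × ℝ)
              + iteratedFDeriv ℝ 2 φ x
                (![((0 : ℝ), (1 : ℝ)), ((0 : ℝ), (1 : ℝ))] : Fin 2 → ℝ × ℝ)) =
          (∫ x, lam * (∑ b, ∑ c, (M a b : ℝ) * Real.exp (u b x) * (M b c : ℝ) * Real.exp (u c x)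
                - ∑ b, (M a b : ℝ) * Real.exp (u b x)) * φ x)
            + 4 * Real.pi * ∑ _j : Fin (N a), φ p) ∧
        (∀ a, Filter.Tendsto (fun x => Real.exp (u a x)) (Filter.cocompact (ℝ × ℝ)) (nhds 0)) ∧
        (∀ a, MeasureTheory.Integrable (fun x => Real.exp (u a x)) MeasureTheory.volume) ∧
        (∀ a, Filter.Tendsto
          (fun x => u a x - N a * Real.log ((x.1 - p.1) ^ 2 + (x.2 - p.2) ^ 2))
          (nhds p) (nhds (α a))) := by
  intro r K _ _ hK lam hlam N p M hM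
  obtain ⟨d, hd, hpd⟩ := hK
  let MR : Matrix (Fin r) (Fin r) ℝ := Matrix.of fun a b => (M a b : ℝ)
  let KR : Matrix (Fin r) (Fin r) ℝ := Matrix.of fun a b => (K a b : ℝ)
  have hq : ∀ (X : Fin r → ℝ) (a : Fin r), quad MR X a
      = ∑ b, ∑ c, (M a b : ℝ) * X b * (M b c : ℝ) * X c - ∑ b, (M a b : ℝ) * X b := by
    intro X a
    simp only [quad, pq, MR, Matrix.of_apply]
    rw [← Finset.sum_sub_distrib]
    refine Finset.sum_congr rfl fun b _ => ?_
    rw [mul_sub, Finset.mul_sum, Finset.mul_sum]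
    congr 1
    exact Finset.sum_congr rfl fun c _ => by ring
  have key : ∃ d' : Fin r → ℝ, (∀ a, 0 < d' a) ∧ (∀ a b, d' a * MR a b = d' b * MR b a) ∧
      (∀ x, x ≠ 0 → 0 < bil MR d' x x) ∧
      (∀ y : Fin r → ℝ, ∃ x : Fin r → ℝ, ∀ a, ∑ b, MR a b * x b = y a) := by
    rcases hM with rfl | rfl
    · exact ⟨d, hd, symm_facts MR d hd hpd⟩
    · obtain ⟨h1, h2, h3⟩ := symm_facts_transpose KR d hd hpd
      exact ⟨fun a => (d a)⁻¹, fun a => inv_pos.2 (hd a), h1, h2, h3⟩
  obtain ⟨d', hd', hsym, hpos, hsurj⟩ := key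
  obtain ⟨A, hA⟩ := planar_solution MR d' hd' hsym hpos hsurj hlam N p
  refine ⟨A, fun α hα => ?_⟩
  obtain ⟨u, h1, h2, h3, h4, h5, h6, h7⟩ := hA α hα
  refine ⟨u, h1, h2, fun a => ?_, fun a φ hφ hc => ?_, h5, h6, h7⟩
  · simpa only [hq] using h3 a
  · have := h4 a φ hφ hc
    simpa only [hq, lap] using this

end Pool.Agent.Results.MP_ad5d82_an.CommonVortexPoint
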